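import Pool.Agent.Lib.H36R.CP

/-!
# H75W, file Cover: the cover lemma for fractional Hamiltonian cycles

`G` is 2-connected, `r` a vertex and `z` real numbers on the vertices. If every forest `F` of `G - r`
and every neighbour `a` of `r` satisfy `2 z(a) < 2 z(V - r) - z(F)`, then some upper level set
`{v ≠ r, z(v) ≥ c}` is disconnected. Otherwise let `z(v₁)` be maximal. Two paths from neighbours
`a, a'` of `r` to `v₁` give a path `Q`; its weight is `z(a) + z(a') ≤ 2 z(a)`. A new vertex `u` with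
`z(u)` maximal is reached by an edge from a vertex with a value at least `z(u)`, so that the weight
does not grow.
-/

set_option autoImplicit false

namespace H75W

open Finset H98M H98P H85TF H36R

section
variable {V : Type*} [DecidableEq V]

/-- `F` is a forest. -/
def For (F : Finset (Sym2 V)) : Prop :=
  ∀ U : Finset V, U.Nonempty → (F ∩ LW U).card + 1 ≤ U.card

theorem mem_int {F : Finset (Sym2 V)} {U : Finset V} {e : Sym2 V} :
    e ∈ F ∩ LW U ↔ e ∈ F ∧ (∀ v ∈ e, v ∈ U) ∧ ¬ e.IsDiag := by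
  unfold LW
  rw [mem_inter, mem_filter, mem_sym2_iff]

theorem for_empty : For (∅ : Finset (Sym2 V)) := by
  intro U hU
  have := card_pos.2 hU
  rw [empty_inter, card_empty]
  omega

theorem for_insert {F : Finset (Sym2 V)} (h : For F) {x y : V} (hxy : x ≠ y) (hy : dg F y = 0) :
    For (insert s(x, y) F) := by
  intro U hU
  by_cases hyU : y ∈ U
  · have hsub : insert s(x, y) F ∩ LW U ⊆ insert s(x, y) (F ∩ LW (U.erase y)) := by
      intro e he
      rw [mem_int, mem_insert] at he
      rcases he.1 with h1 | h1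
      · exact h1 ▸ mem_insert_self _ _
      · refine mem_insert_of_mem (mem_int.2 ⟨h1, fun v hv => mem_erase.2 ⟨?_, he.2.1 v hv⟩, he.2.2⟩)
        rintro rfl
        have : 0 < dg F v := card_pos.2 ⟨e, mem_filter.2 ⟨h1, hv⟩⟩
        omega
    have hc1 := card_erase_of_mem hyU
    have hpos := card_pos.2 hU
    by_cases hU' : (U.erase y).Nonempty
    · have h1 := h (U.erase y) hU'
      have h2 := card_le_card hsub
      have h3 := card_insert_le s(x, y) (F ∩ LW (U.erase y))
      omega
    · rw [not_nonempty_iff_eq_empty] at hU'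
      have h0 : insert s(x, y) F ∩ LW U = ∅ := by
        rw [eq_empty_iff_forall_notMem]
        intro e he
        have h4 := hsub he
        rcases mem_insert.1 h4 with h5 | h5
        · have h6 : x ∈ U := (mem_int.1 he).2.1 x (by rw [h5]; simp)
          exact notMem_empty x (hU' ▸ mem_erase.2 ⟨hxy, h6⟩)
        · rw [mem_int] at h5
          induction e using Sym2.ind with
          | _ a b => exact notMem_empty a (hU' ▸ h5.2.1 a (by simp))
      rw [h0, card_empty]
      omega
  · have hsub : insert s(x, y) F ∩ LW U ⊆ F ∩ LW U := by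
      intro e he
      rw [mem_int, mem_insert] at he
      rcases he.1 with h1 | h1
      · exact absurd (he.2.1 y (by rw [h1]; simp)) hyU
      · exact mem_int.2 ⟨h1, he.2⟩
    have := h U hU
    have := card_le_card hsub
    omega

/-- The edge set of a path, with the forest property. -/
theorem pathF' {E : Finset (Sym2 V)} {d : V} :
    ∀ {x : V} (p : (SimpleGraph.fromEdgeSet (E : Set (Sym2 V))).Walk x d), p.IsPath → x ≠ d →
      ∃ F ⊆ E, dg F x = 1 ∧ dg F d = 1 ∧ (∀ v ∈ p.support, v ≠ x → v ≠ d → dg F v = 2) ∧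
        (∀ v, v ∉ p.support → dg F v = 0) ∧ For F := by
  intro x p
  induction p with
  | nil => intro _ h; exact absurd rfl h
  | @cons x y d h q ih =>
    intro hp hxd
    rw [SimpleGraph.fromEdgeSet_adj] at h
    obtain ⟨hxy, hxy'⟩ := h
    have hxy1 : s(x, y) ∈ E := by exact_mod_cast hxy
    rw [SimpleGraph.Walk.cons_isPath_iff] at hp
    by_cases hyd : y = d
    · subst hyd
      have hq : q.support = [y] := by
        have h1 := hp.1
        rw [SimpleGraph.Walk.isPath_iff_eq_nil] at h1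
        rw [h1]
        rfl
      have key := dg_insert (F := (∅ : Finset (Sym2 V))) (a := x) (u := y) (notMem_empty _)
      have hz : ∀ v, dg (∅ : Finset (Sym2 V)) v = 0 := fun v => by simp [dg]
      refine ⟨insert s(x, y) ∅, insert_subset hxy1 (empty_subset _), ?_, ?_, ?_, ?_,
        for_insert for_empty hxd (hz y)⟩
      · rw [key x, hz]; simp
      · rw [key y, hz]; simp
      · intro v hv h1 h2
        rw [SimpleGraph.Walk.support_cons, hq] at hv
        simp only [List.mem_cons, List.not_mem_nil, or_false] at hv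
        rcases hv with h3 | h3
        · exact absurd h3 h1
        · exact absurd h3 h2
      · intro v hv
        have h1 : v ≠ x := fun e => hv (by rw [e]; simp)
        have h2 : v ≠ y := fun e => hv (by rw [e]; simp)
        rw [key v, hz]; simp [h1, h2]
    · obtain ⟨F, hF, h1, h2, h3, h4, h8⟩ := ih hp.1 hyd
      have hx0 : dg F x = 0 := h4 x hp.2
      have hnF : s(x, y) ∉ F := fun h' => by
        have := dg_pos h'
        omega
      have key := dg_insert hnF
      refine ⟨insert s(x, y) F, insert_subset hxy1 hF, ?_, ?_, ?_, ?_, ?_⟩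
      · rw [key x, hx0]; simp
      · have h5 : d ≠ x := Ne.symm hxd
        have h6 : d ≠ y := Ne.symm hyd
        rw [key d, h2]; simp [h5, h6]
      · intro v hv hv1 hv2
        rw [SimpleGraph.Walk.support_cons, List.mem_cons] at hv
        have hvq := hv.resolve_left hv1
        by_cases hvy : v = y
        · rw [hvy, key y, h1]; simp
        · have := h3 v hvq hvy hv2
          rw [key v]
          simpa [hv1, hvy] using this
      · intro v hv
        have h5 : v ≠ x := fun e => hv (by rw [e]; simp)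
        have h6 : v ∉ q.support := fun h7 => hv (by simp [h7])
        have h7 : v ≠ y := fun e => h6 (by rw [e]; simp)
        rw [key v, h4 v h6]; simp [h5, h7]
      · rw [Sym2.eq_swap]
        exact for_insert h8 (Ne.symm hxy') hx0

end

section
variable {V : Type} [Fintype V] [DecidableEq V]

/-- A path of `G - z` from a neighbour of `z` to another one through `w`. -/
theorem path_through {E : Finset (Sym2 V)} (hc : ¬ Disc univ E)
    (hcut : ∀ z, ¬ Disc (univ.erase z) E) {z w : V} (hzw : z ≠ w) (hn : s(z, w) ∉ E) :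
    ∃ (a c : V) (p : (SimpleGraph.fromEdgeSet (E : Set (Sym2 V))).Walk a c), p.IsPath ∧ a ≠ c ∧
      s(z, a) ∈ E ∧ s(z, c) ∈ E ∧ w ∈ p.support ∧ ∀ x ∈ p.support, x ≠ z := by
  classical
  set G := SimpleGraph.fromEdgeSet (E : Set (Sym2 V)) with hG
  have hadj : ∀ a b, G.Adj a b ↔ s(a, b) ∈ E ∧ a ≠ b := by
    intro a b
    rw [hG, SimpleGraph.fromEdgeSet_adj]
    exact and_congr (by exact_mod_cast Iff.rfl) Iff.rfl
  obtain ⟨S, hS⟩ : ∃ S : Finset V, ∀ x, x ∈ S ↔ x ≠ z ∧ x ≠ w :=
    ⟨univ.filter fun x => x ≠ z ∧ x ≠ w, fun x => by simp⟩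
  obtain ⟨A, hA⟩ : ∃ A : Finset V, ∀ x, x ∈ A ↔ x ∈ S ∧ s(z, x) ∈ E :=
    ⟨S.filter fun x => s(z, x) ∈ E, fun x => by simp⟩
  obtain ⟨B, hB⟩ : ∃ B : Finset V, ∀ x, x ∈ B ↔ x ∈ S ∧ s(w, x) ∈ E :=
    ⟨S.filter fun x => s(w, x) ∈ E, fun x => by simp⟩
  obtain ⟨C, D, hCS, hDS, hC, hD, ⟨a, haC, haA⟩, ⟨b, hbC, hbB⟩, ⟨c, hcD, hcA⟩, ⟨d, hdD, hdB⟩, hCD⟩ :=
    two_link G S A B (fun x hx => ((hA x).1 hx).1) (fun x hx => ((hB x).1 hx).1) (by
      intro Z U hZ hU hAU hUB hcl
      by_contra hlt
      have hdisc : Disc (univ \ Z) E := by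
        refine disc_of_sep hzw hn (fun h => ((hS z).1 (hZ h)).1 rfl) (fun h => ((hS w).1 (hZ h)).2 rfl)
          (U := U) (fun x hx => ⟨((hS x).1 (hU x hx).1).1, ((hS x).1 (hU x hx).1).2, (hU x hx).2⟩) ?_ ?_ ?_
        · intro x hx h1 h2 h4
          exact hAU x ((hA x).2 ⟨(hS x).2 ⟨h1, h2⟩, hx⟩) h4
        · intro x hx h1
          exact hUB x hx ((hB x).2 ⟨(hU x hx).1, h1⟩)
        · intro x hx y h1 h2 h4 h5 h6
          refine hcl x hx y ((hS y).2 ⟨h1, h2⟩) h4 h5 ((hadj x y).2 ⟨h6, ?_⟩)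
          rintro rfl
          exact h5 hx
      have hcard : Z.card = 0 ∨ Z.card = 1 := by omega
      rcases hcard with h0 | h1
      · rw [card_eq_zero] at h0
        subst h0
        rw [sdiff_empty] at hdisc
        exact hc hdisc
      · obtain ⟨v, rfl⟩ := card_eq_one.1 h1
        rw [sdiff_singleton_eq_erase] at hdisc
        exact hcut v hdisc)
  obtain ⟨p, hp, hpC⟩ := path_of_not_disc (not_disc_of_conn hC) haC hbC
  obtain ⟨q, hq, hqD⟩ := path_of_not_disc (not_disc_of_conn hD) hdD hcD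
  have hbw : G.Adj b w := (hadj b w).2 ⟨by rw [Sym2.eq_swap]; exact ((hB b).1 hbB).2,
    ((hS b).1 ((hB b).1 hbB).1).2⟩
  have hwd : G.Adj w d := (hadj w d).2 ⟨((hB d).1 hdB).2, Ne.symm ((hS d).1 ((hB d).1 hdB).1).2⟩
  have hac : a ≠ c := by
    rintro rfl
    exact hCD a haC hcD
  have hsup : (p.append (SimpleGraph.Walk.cons hbw (SimpleGraph.Walk.cons hwd q))).support =
      p.support ++ (w :: q.support) := by
    rw [SimpleGraph.Walk.support_append]
    simp
  refine ⟨a, c, p.append (SimpleGraph.Walk.cons hbw (SimpleGraph.Walk.cons hwd q)), ?_, hac,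
    ((hA a).1 haA).2, ((hA c).1 hcA).2, by rw [hsup]; simp, ?_⟩
  · rw [SimpleGraph.Walk.isPath_def, hsup]
    refine List.Nodup.append (by rw [← SimpleGraph.Walk.isPath_def]; exact hp) ?_ ?_
    · rw [List.nodup_cons]
      exact ⟨fun h => ((hS w).1 (hDS (hqD w h))).2 rfl, by rw [← SimpleGraph.Walk.isPath_def]; exact hq⟩
    · intro x hx hx'
      rcases List.mem_cons.1 hx' with rfl | hx'
      · exact ((hS x).1 (hCS (hpC x hx))).2 rfl
      · exact hCD x (hpC x hx) (hqD x hx')
  · intro x hx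
    rw [hsup, List.mem_append, List.mem_cons] at hx
    rcases hx with hx | rfl | hx
    · exact ((hS x).1 (hCS (hpC x hx))).1
    · exact Ne.symm hzw
    · exact ((hS x).1 (hDS (hqD x hx))).1

/-- The weight `2 z(V - r) - z(F) - 2 z(a)`. -/
def Lf (r a : V) (F : Finset (Sym2 V)) (z : V → ℝ) : ℝ :=
  (∑ v ∈ univ.erase r, (2 - (dg F v : ℝ)) * z v) - 2 * z a

/-- `F` is a forest of `G - r` and `a` a neighbour of `r`. -/
def Adm (G : Finset (Sym2 V)) (r a : V) (F : Finset (Sym2 V)) : Prop :=
  s(r, a) ∈ G ∧ a ≠ r ∧ F ⊆ G ∧ (∀ e ∈ F, r ∉ e) ∧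
    ∀ U : Finset V, U.Nonempty → r ∉ U → (F ∩ LW U).card + 1 ≤ U.card

/-- Double counting: `zs s(u, v) = z u + z v` gives `∑ e ∈ F, zs e = ∑ v, dg F v * z v`. -/
theorem sum_zs {z : V → ℝ} {zs : Sym2 V → ℝ} (h : ∀ u v, zs s(u, v) = z u + z v) :
    ∀ F : Finset (Sym2 V), (∀ e ∈ F, ¬ e.IsDiag) → ∑ e ∈ F, zs e = ∑ v, (dg F v : ℝ) * z v := by
  intro F
  induction F using Finset.induction_on with
  | empty => intro _; simp [dg]
  | insert e F he ih =>
    intro hE
    have ih' := ih fun f hf => hE f (mem_insert_of_mem hf)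
    rw [sum_insert he, ih']
    induction e using Sym2.ind with
    | _ a u =>
      have hau : a ≠ u := by
        have := hE s(a, u) (mem_insert_self _ _)
        simpa using this
      rw [h a u]
      have e1 : ∀ v ∈ (univ : Finset V), (dg (insert s(a, u) F) v : ℝ) * z v =
          (dg F v : ℝ) * z v + ((if v = a then z v else 0) + if v = u then z v else 0) := by
        intro v _
        rw [dg_insert he v]
        by_cases h1 : v = a
        · have h2 : v ≠ u := fun e => hau (h1.symm.trans e)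
          simp [h1, hau]
          ring
        · by_cases h2 : v = u
          · simp [h2, Ne.symm hau]
            ring
          · simp [h1, h2]
      rw [sum_congr rfl e1, sum_add_distrib, sum_add_distrib, sum_ite_eq', sum_ite_eq',
        if_pos (mem_univ _), if_pos (mem_univ _)]
      ring

/-- The weight in the form `2 z(V - r) - z(F) - 2 z(a)`. -/
theorem Lf_eq {r a : V} {F : Finset (Sym2 V)} {z : V → ℝ} {zs : Sym2 V → ℝ}
    (h : ∀ u v, zs s(u, v) = z u + z v) (hE : ∀ e ∈ F, ¬ e.IsDiag) (hr : ∀ e ∈ F, r ∉ e) :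
    Lf r a F z = 2 * ∑ v ∈ univ.erase r, z v - ∑ e ∈ F, zs e - 2 * z a := by
  have h0 : dg F r = 0 := by
    unfold dg
    rw [card_eq_zero, filter_eq_empty_iff]
    exact hr
  have h1 : ∑ v, (dg F v : ℝ) * z v = ∑ v ∈ univ.erase r, (dg F v : ℝ) * z v := by
    rw [← add_sum_erase univ _ (mem_univ r), h0]
    simp
  unfold Lf
  rw [sum_zs h F hE, h1, mul_sum, ← sum_sub_distrib]
  congr 1
  exact sum_congr rfl fun v _ => by ring

/-- Growing: the part `S` becomes everything. -/
theorem grow {G : Finset (Sym2 V)} {r : V} {z : V → ℝ} {v₁ : V} (hv₁ : ∀ v, v ≠ r → z v ≤ z v₁)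
    (hlev : ∀ c : ℝ, ¬ Disc (univ.filter fun v => v ≠ r ∧ c ≤ z v) G) {M : ℝ} :
    ∀ (k : ℕ) (S : Finset V) (F : Finset (Sym2 V)), ((univ.erase r) \ S).card ≤ k → r ∉ S →
      v₁ ∈ S → F ⊆ G → For F → (∀ v, v ∉ S → dg F v = 0) →
      ∑ v ∈ S, (2 - (dg F v : ℝ)) * z v ≤ M →
      ∃ F' ⊆ G, For F' ∧ dg F' r = 0 ∧ ∑ v ∈ univ.erase r, (2 - (dg F' v : ℝ)) * z v ≤ M := by
  intro k
  induction k with
  | zero =>
    intro S F hk hr _ hF hfor hdeg hM
    have h0 : (univ.erase r) \ S = ∅ := card_eq_zero.1 (Nat.le_zero.1 hk)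
    have hS : S = univ.erase r := by
      refine Subset.antisymm (fun v hv => mem_erase.2 ⟨fun e => hr (e ▸ hv), mem_univ _⟩) ?_
      exact sdiff_eq_empty_iff_subset.1 h0
    exact ⟨F, hF, hfor, hdeg r hr, hS ▸ hM⟩
  | succ k ih =>
    intro S F hk hr hv₁S hF hfor hdeg hM
    by_cases h0 : (univ.erase r) \ S = ∅
    · have hS : S = univ.erase r := by
        refine Subset.antisymm (fun v hv => mem_erase.2 ⟨fun e => hr (e ▸ hv), mem_univ _⟩) ?_
        exact sdiff_eq_empty_iff_subset.1 h0
      exact ⟨F, hF, hfor, hdeg r hr, hS ▸ hM⟩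
    · obtain ⟨u, hu, humax⟩ := exists_max_image ((univ.erase r) \ S) z (nonempty_iff_ne_empty.2 h0)
      rw [mem_sdiff, mem_erase] at hu
      have hedge : ∃ p ∈ S, ∃ q, q ∉ S ∧ q ≠ r ∧ z u ≤ z p ∧ z u ≤ z q ∧ s(p, q) ∈ G := by
        by_contra hcon
        push Not at hcon
        refine hlev (z u) ⟨(univ.filter fun v => v ≠ r ∧ z u ≤ z v) ∩ S,
          (univ.filter fun v => v ≠ r ∧ z u ≤ z v) \ S, ⟨v₁, ?_⟩, ⟨u, ?_⟩, ?_, ?_, ?_⟩
        · rw [mem_inter, mem_filter]
          exact ⟨⟨mem_univ _, fun e => hr (e ▸ hv₁S), hv₁ u hu.1.1⟩, hv₁S⟩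
        · rw [mem_sdiff, mem_filter]
          exact ⟨⟨mem_univ _, hu.1.1, le_refl _⟩, hu.2⟩
        · exact disjoint_left.2 fun x hx hx' => (mem_sdiff.1 hx').2 (mem_inter.1 hx).2
        · rw [union_comm]
          exact sdiff_union_inter _ _
        · intro x hx y hy hxy
          rw [mem_inter, mem_filter] at hx
          rw [mem_sdiff, mem_filter] at hy
          exact hcon x hx.2 y hy.2 hy.1.2.1 hx.1.2.2 hy.1.2.2 hxy
      obtain ⟨p, hp, q, hq, hqr, hzp, hzq, hpq⟩ := hedge
      have hqu : z q ≤ z u := humax q (mem_sdiff.2 ⟨mem_erase.2 ⟨hqr, mem_univ _⟩, hq⟩)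
      have hpq' : p ≠ q := fun e => hq (e ▸ hp)
      have hq0 := hdeg q hq
      have hnF : s(p, q) ∉ F := fun h' => by
        have := dg_pos' h'
        omega
      have key := dg_insert hnF
      refine ih (insert q S) (insert s(p, q) F) ?_ ?_ (mem_insert_of_mem hv₁S)
        (insert_subset hpq hF) (for_insert hfor hpq' hq0) ?_ ?_
      · have h1 : ((univ.erase r) \ insert q S).card < ((univ.erase r) \ S).card := by
          refine card_lt_card ⟨fun x hx => ?_, fun h => ?_⟩
          · rw [mem_sdiff, mem_insert] at hx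
            exact mem_sdiff.2 ⟨hx.1, fun h => hx.2 (Or.inr h)⟩
          · have := h (mem_sdiff.2 ⟨mem_erase.2 ⟨hqr, mem_univ q⟩, hq⟩)
            exact (mem_sdiff.1 this).2 (mem_insert_self _ _)
        omega
      · rw [mem_insert]
        rintro (h | h)
        · exact hqr h.symm
        · exact hr h
      · intro v hv
        rw [mem_insert] at hv
        push Not at hv
        have h1 : v ≠ p := fun e => hv.2 (e ▸ hp)
        rw [key v, hdeg v hv.2]
        simp [h1, hv.1]
      · rw [sum_insert hq]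
        have e1 : (2 - (dg (insert s(p, q) F) q : ℝ)) * z q = z q := by
          rw [key q, hq0]
          simp
          ring
        have e2 : ∑ v ∈ S, (2 - (dg (insert s(p, q) F) v : ℝ)) * z v =
            ∑ v ∈ S, (2 - (dg F v : ℝ)) * z v - z p := by
          have e3 : ∀ v ∈ S, (2 - (dg (insert s(p, q) F) v : ℝ)) * z v =
              (2 - (dg F v : ℝ)) * z v - if v = p then z v else 0 := by
            intro v hv
            have h1 : v ≠ q := fun e => hq (e ▸ hv)
            rw [key v]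
            by_cases h2 : v = p
            · simp [h2]
              ring
            · simp [h1, h2]
          rw [sum_congr rfl e3, sum_sub_distrib, sum_ite_eq' S p, if_pos hp]
        rw [e1, e2]
        linarith

/-- THE COVER LEMMA. -/
theorem cover {G : Finset (Sym2 V)} (hc : ¬ Disc univ G)
    (hcut : ∀ z, ¬ Disc (univ.erase z) G) (h3 : 2 ≤ Fintype.card V) (r : V)
    (z : V → ℝ) (hz : ∀ a F, Adm G r a F → 0 < Lf r a F z) :
    ∃ c : ℝ, Disc (univ.filter fun v => v ≠ r ∧ c ≤ z v) G := by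
  by_contra hcon
  push Not at hcon
  have hne : (univ.erase r : Finset V).Nonempty := by
    rw [← card_pos, card_erase_of_mem (mem_univ r), card_univ]
    omega
  obtain ⟨v₁, hv₁, hmax⟩ := exists_max_image (univ.erase r) z hne
  have hv₁r : v₁ ≠ r := (mem_erase.1 hv₁).1
  have hmax' : ∀ v, v ≠ r → z v ≤ z v₁ := fun v hv => hmax v (mem_erase.2 ⟨hv, mem_univ _⟩)
  -- it is enough to start
  have main : ∀ (a : V) (S : Finset V) (F : Finset (Sym2 V)), s(r, a) ∈ G → a ≠ r → r ∉ S →
      v₁ ∈ S → F ⊆ G → For F → (∀ v, v ∉ S → dg F v = 0) →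
      ∑ v ∈ S, (2 - (dg F v : ℝ)) * z v ≤ 2 * z a → False := by
    intro a S F ha har hr hS hF hfor hdeg hM
    obtain ⟨F', h1, h2, h4, h5⟩ := grow hmax' hcon _ S F le_rfl hr hS hF hfor hdeg hM
    have := hz a F' ⟨ha, har, h1, fun e he hre => by
      have : 0 < dg F' r := card_pos.2 ⟨e, mem_filter.2 ⟨he, hre⟩⟩
      omega, fun U hU _ => h2 U hU⟩
    unfold Lf at this
    linarith
  by_cases hn : s(r, v₁) ∈ G
  · refine main v₁ {v₁} ∅ hn hv₁r (by rw [mem_singleton]; exact hv₁r.symm) (mem_singleton_self _)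
      (empty_subset _) for_empty (fun v _ => by simp [dg]) ?_
    rw [sum_singleton]
    simp [dg]
  · obtain ⟨a, c, p, hp, hac, ha, hc', hw, hpr⟩ := path_through hc hcut hv₁r.symm hn
    obtain ⟨F, hF, h1, h2, h4, h5, h6⟩ := pathF' p hp hac
    have haS : a ∈ p.support.toFinset := by simp
    have hcS : c ∈ p.support.toFinset := by simp
    have hsum : ∑ v ∈ p.support.toFinset, (2 - (dg F v : ℝ)) * z v = z a + z c := by
      rw [← sum_subset (s₁ := {a, c})]
      · rw [sum_pair hac, h1, h2]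
        push_cast
        ring
      · intro v hv
        rw [mem_insert, mem_singleton] at hv
        rcases hv with rfl | rfl
        · exact haS
        · exact hcS
      · intro v hv hv'
        rw [mem_insert, mem_singleton] at hv'
        push Not at hv'
        rw [h4 v (List.mem_toFinset.1 hv) hv'.1 hv'.2]
        push_cast
        ring
    have hS : r ∉ p.support.toFinset := fun h => hpr r (List.mem_toFinset.1 h) rfl
    have hwS : v₁ ∈ p.support.toFinset := List.mem_toFinset.2 hw
    have hdeg : ∀ v, v ∉ p.support.toFinset → dg F v = 0 := fun v hv =>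
      h5 v fun h => hv (List.mem_toFinset.2 h)
    rcases le_total (z c) (z a) with h | h
    · refine main a _ F ha (hpr a (by simp)) hS hwS hF h6 hdeg ?_
      rw [hsum]
      linarith
    · refine main c _ F hc' (hpr c (by simp)) hS hwS hF h6 hdeg ?_
      rw [hsum]
      linarith

/-- THE COVER LEMMA, with the weights `2 z(V - r) - z(F) - 2 z(a)`. -/
theorem cover' {G : Finset (Sym2 V)} (hE : ∀ e ∈ G, ¬ e.IsDiag) (hc : ¬ Disc univ G)
    (hcut : ∀ z, ¬ Disc (univ.erase z) G) (h3 : 2 ≤ Fintype.card V) (r : V)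
    (z : V → ℝ) {zs : Sym2 V → ℝ} (hzs : ∀ u v, zs s(u, v) = z u + z v)
    (hz : ∀ a F, Adm G r a F → 0 < 2 * ∑ v ∈ univ.erase r, z v - ∑ e ∈ F, zs e - 2 * z a) :
    ∃ c : ℝ, Disc (univ.filter fun v => v ≠ r ∧ c ≤ z v) G := by
  refine cover hc hcut h3 r z fun a F h => ?_
  rw [Lf_eq hzs (fun e he => hE e (h.2.2.1 he)) h.2.2.2.1]
  exact hz a F h

end

end H75W
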